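import Pool.Agent.Y139.SM.Fin3

/-!
# The poles of the tensor powers: positivity, and Tate's conjecture from the high odd powers

`X` is a smooth projective variety over a number field `K`, `V = A^m(X) ⊗ ℚ` the space of the classes of
the algebraic cycles of codimension `m` defined over the algebraic closure, and `T` the complement of
`V(-m)` in `H^{2m}(X)`, of dimension `s = N - dim V` (the transcendental part).  For an Artin
representation `χ`, `L(T^{⊗ r} ⊗ χ, s)` is a factor of `L(H^{2rm}(X^r) ⊗ χ, s)`.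
The definitions are in `Pool.Agent.Y139.SM.Defs`, `Pool.Agent.W353.AT.TDefs`,
`Pool.Agent.W353.AT.Defs`, `Pool.Agent.W353.TD.Defs`, `Pool.Agent.W353.EH.Defs` and
`Pool.Agent.W353.EF.Defs`.
-/

set_option autoImplicit false

namespace Pool.Agent.Results.MP_223b32_ag.MomentPositivity

open NumberField IsDedekindDomain Filter Topology Polynomial MeasureTheory
open Pool.Agent.W353.EH (size)
open Pool.Agent.W353.TD (IsPart)
open Pool.Agent.W353.AT (IsArtin IsTwistedSystem twistRank TwistDefect)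
open Pool.Agent.Y139.SM (IsTensorSystem)

/-- Write `x(M)` for the quotient `log |L(M, edge + ε)| / log(1/ε)`, a function of `ε > 0`; its limit for
`ε → 0+` is the order of the pole of `L(M, s)` at the edge.
* **Positivity** (no continuation is assumed).  Let `χ_k`, `χ'_k` be finitely many Artin representations
  and `r_k ≥ 0`.  If the real numbers `c_k`, `c'_k` satisfy
  `∑ c_k t^{r_k} Re χ_k(g) + ∑ c'_k t Re χ'_k(g) ≥ 0` for all real `t` with `|t| ≤ s` and all `g`, then for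
  every `η > 0` and all small `ε > 0`
  `∑ c_k x(T^{⊗ r_k} ⊗ χ_k) + ∑ c'_k (x(H^{2m}(X) ⊗ χ'_k) - dim (V ⊗ χ'_k)^G) ≥ -η`.
* **High odd powers.**  Let `χ` be an Artin representation of dimension `n`, `R` odd, and suppose that for
  all odd `r` with `3 ≤ r ≤ R` the pole of `L(T^{⊗ r} ⊗ χ, s)` at the edge has the order `E(t^r c)`, for two
  random variables `t`, `c` with `|t| ≤ s`, `|c| ≤ n` and `E(t c) = 0` (for instance the traces on `T` and on
  `χ` of a random element of a compact group that has no invariants on `T ⊗ χ`; then `E(t^r c)` is the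
  number of the invariants on `T^{⊗ r} ⊗ χ`).  Then for every `η > 0` and all small `ε > 0`
  `|x(H^{2m}(X) ⊗ χ) - dim (V ⊗ χ)^G| ≤ 2 n s / R + η` (no continuation is assumed), and if `2 n s < R`, then
  the order of `L(H^{2m}(X) ⊗ χ, s)` at `m + 1`, if it exists, is the one predicted by Tate. -/
theorem result (K : Type) [Field K] [NumberField K] (l d m N : ℕ)
    (X : Set (MvPolynomial (Fin l) (𝓞 K))) (V : Type) [AddCommGroup V] [Module ℚ V]
    [FiniteDimensional ℚ V] (ρ : Representation ℚ Gal(AlgebraicClosure K/K) V) (hm : m ≤ d)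
    (hV : IsPart X d m N ρ) :
    (∀ (κ κ' : Type) [Fintype κ] [Fintype κ'] (r n : κ → ℕ)
      (χ : ∀ k, Representation ℂ Gal(AlgebraicClosure K/K) (Fin (n k) → ℂ))
      (B : κ → HeightOneSpectrum (𝓞 K) → ℂ[X]) (c : κ → ℝ) (n' : κ' → ℕ)
      (χ' : ∀ k, Representation ℂ Gal(AlgebraicClosure K/K) (Fin (n' k) → ℂ))
      (B' : κ' → HeightOneSpectrum (𝓞 K) → ℂ[X]) (c' : κ' → ℝ),
      (∀ k, IsArtin (χ k)) → (∀ k, IsTensorSystem X d m N ρ (r k) (χ k) (B k)) →
      (∀ k, IsArtin (χ' k)) → (∀ k, IsTwistedSystem X d (2 * m) N (χ' k) 0 (B' k)) →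
      (∀ t : ℝ, |t| ≤ (N - Module.finrank ℚ V : ℕ) → ∀ g,
        0 ≤ ∑ k, c k * (t ^ r k * ((χ k).character g).re) +
          ∑ k, c' k * (t * ((χ' k).character g).re)) →
      ∀ η : ℝ, 0 < η → ∀ᶠ ε : ℝ in 𝓝[>] 0, -η ≤ ∑ k, c k * size (2 * (r k * m)) 0 (B k) ε +
        ∑ k, c' k * (size (2 * m) 0 (B' k) ε - twistRank ρ (χ' k))) ∧
    (∀ (n : ℕ) (χ : Representation ℂ Gal(AlgebraicClosure K/K) (Fin n → ℂ)), IsArtin χ →
      ∀ (R : ℕ), Odd R → ∀ (Ω : Type) [MeasurableSpace Ω] (P : Measure Ω)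
      [IsProbabilityMeasure P] (t c : Ω → ℝ), Measurable t → Measurable c →
      (∀ ω, |t ω| ≤ (N - Module.finrank ℚ V : ℕ)) → (∀ ω, |c ω| ≤ n) →
      ∫ ω, t ω * c ω ∂P = 0 →
      (∀ r, Odd r → 3 ≤ r → r ≤ R → ∃ B, IsTensorSystem X d m N ρ r χ B ∧
        Tendsto (size (2 * (r * m)) 0 B) (𝓝[>] 0) (𝓝 (∫ ω, t ω ^ r * c ω ∂P))) →
      (∀ B', IsTwistedSystem X d (2 * m) N χ 0 B' → ∀ η : ℝ, 0 < η → ∀ᶠ ε : ℝ in 𝓝[>] 0,
        |size (2 * m) 0 B' ε - twistRank ρ χ| ≤
          2 * n * (((N - Module.finrank ℚ V : ℕ) : ℝ) / R) + η) ∧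
      (2 * n * (N - Module.finrank ℚ V) < R →
        ∀ δ : ℤ, TwistDefect X d m N ρ χ δ → δ = 0)) :=
  ⟨fun _ _ _ _ r n χ B c n' χ' B' c' hχ hB hχ' hB' hc _ hη =>
    Pool.Agent.Y139.SM.positivity hm hV r n χ hχ B hB c n' χ' hχ' B' hB' c' hc hη,
  fun _ χ hχ _ hR _ _ P _ _ _ ht hc hts hcn h0 hM =>
    Pool.Agent.Y139.SM.highPowers_measure hm hV χ hχ hR P ht hc hts hcn h0 hM⟩

end Pool.Agent.Results.MP_223b32_ag.MomentPositivity
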