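import Pool.Agent.Y149.TL.Uni

/-!
# The order of the pole for products of many varieties: products of two decide

`Y_e`, `e ∈ ι`, is any family of smooth projective varieties over `ℚ` of bounded dimension with bounded
Betti numbers, and `X` is a smooth projective variety over `ℚ`, for example a point.  Suppose that the
conjecture of Tate on the order of the pole is known for the members of the family and for the
products of two members, in the form: `L(H^c(Y_e), s)` has a pole of order `τ_{e,c}` at the edge, and
for members which are not related `L(H^c(Y_e) ⊗ H^c(Y_{e'}), s)` has a pole of order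
`τ_{e,c} τ_{e',c}` at the edge `s = c + 1` (there are no algebraic classes besides those which come
from the factors).  The orders are known for example for elliptic curves, for rigid Calabi-Yau
threefolds all of whose even classes are algebraic and defined over `ℚ`, and for singular K3 surfaces
with Néron-Severi group defined over `ℚ`, by modularity and the theory of Rankin and Selberg.  We show that the
products of any number of members then behave in the same way, for `100` percent of all `k`-tuples,
with a power saving and an explicit constant: the order of the pole of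
`L(H^n(X × Y_{l_1} × ⋯ × Y_{l_k}), s)` at the edge `s = n/2 + 1` is the coefficient of `T^n` in
`r₀(T) τ_{l_1}(T) ⋯ τ_{l_k}(T)`, if it exists; for `n = 2m` this is what the conjecture predicts if the
cycles on the product are sums of products of cycles.  Moreover there is one infinite subfamily which
works for all varieties `X` over `ℚ` at once, up to finitely many members depending on `X`.  The mean square version assumes nothing about the `L`-functions of the products of more
than two members.

The definitions are in `Pool.Agent.Y149.PK.Defs` and `Pool.Agent.Y149.CM.Defs`.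
-/

set_option autoImplicit false

namespace Pool.Agent.Results.MP_223b32_ag.PairsDecide

open Filter Topology Polynomial
open Pool.Agent.Y149.CM (LFun)
open Pool.Agent.Y149.PK

/-- **Products of two decide.**  `Y_e`, `e ∈ ι`, are smooth projective varieties over `ℚ`, the `c`-th
Betti number of every `Y_e` is at most `N c`, and the orders for one and for two members are as in
`IsPairFamily`.  For a smooth projective variety `X` over `ℚ`, `B l n` are the Euler factors of
`L(H^n(X × Y_{l_1} × ⋯ × Y_{l_k}), s)`, and `b` is the coefficient of `T^n` in `N₀(T) N(T)^k`, `N₀` the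
Betti numbers of `X`.
1. For every finite set `J` of indices, `η > 0` and all small `ε > 0` the sum over all `k`-tuples `l`
of members of `J` of the squares of the difference of `log |L(H^n(X × Y_l), n/2+1+ε)| / log(1/ε)` and
of the coefficient of `T^n` in `x_ε(T) τ_{l_1}(T) ⋯ τ_{l_k}(T)` is at most
`2 M (k b)² |J|^{k-1} + η`, where `x_ε(T) = ∑_c (log |L(H^c(X), c/2+1+ε)| / log(1/ε)) T^c`.
2. If the `L(H^c(X), s)` have poles of order `r₀(c)` at the edge, then the sum of the
`(r(l) - ρ(l))²` over all `k`-tuples `l` of members of `J` for which the order `-r(l)` of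
`L(H^n(X × Y_l), s)` at `s = n/2 + 1` exists is at most `2 M (k b)² |J|^{k-1}`, where `ρ(l)` is the
coefficient of `T^n` in `r₀(T) τ_{l_1}(T) ⋯ τ_{l_k}(T)`.
3. Let `ι` be infinite and let `X_0, X_1, …` be a sequence of smooth projective varieties over `ℚ` for
which all these orders exist.  There is an infinite subset `𝒥` of `ι` with finite subsets
`F_0, F_1, …` such that for all `j`, `k`, `n` and all `k`-tuples `l` of different members of `𝒥`
outside of `F_j` the order for `H^n(X_j × Y_l)` is `-ρ(l)`. -/
theorem result (ι : Type) (M : ℕ) (Y : ι → Variety) (N : ℕ → ℕ) (τ : ι → ℕ → ℤ)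
    (hY : IsPairFamily Y N M τ) :
    (∀ (X : Variety) (B : List ι → ℕ → Nat.Primes → ℂ[X]), IsSystem X Y B →
      (∀ (k n : ℕ) (J : Finset ι) (η : ℝ), 0 < η → ∀ᶠ ε : ℝ in 𝓝[>] 0,
        (∀ c, c ≤ n → LFun (B [] c) ((c : ℂ) / 2 + 1 + ε) ≠ 0) ∧
        (∀ l ∈ tuples J k, LFun (B (List.ofFn l) n) ((n : ℂ) / 2 + 1 + ε) ≠ 0) ∧
        ∑ l ∈ tuples J k, (size n (B (List.ofFn l) n) ε -
          QQ (fun c => size c (B [] c) ε) (fun e c => (τ e c : ℝ)) (List.ofFn l) n) ^ 2 ≤
          2 * M * (k * (dimY X.betti N k n : ℝ)) ^ 2 * (J.card : ℝ) ^ (k - 1) + η) ∧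
      (∀ (k n : ℕ) (r₀ : ℕ → ℤ), (∀ c, c ≤ n → HasOrder c (B [] c) (-(r₀ c))) →
        ∀ (J : Finset ι) (S : Finset (Fin k → ι)) (r : (Fin k → ι) → ℤ),
        (∀ l ∈ S, (∀ i, l i ∈ J) ∧ HasOrder n (B (List.ofFn l) n) (-(r l))) →
        ∑ l ∈ S, (r l - QQ r₀ τ (List.ofFn l) n) ^ 2 ≤
          2 * M * (k * (dimY X.betti N k n : ℤ)) ^ 2 * (J.card : ℤ) ^ (k - 1))) ∧
    (Infinite ι → ∀ (X : ℕ → Variety) (B : ℕ → List ι → ℕ → Nat.Primes → ℂ[X]),
      (∀ j, IsSystem (X j) Y (B j)) →
      ∀ r : ℕ → List ι → ℕ → ℤ, (∀ j l n, HasOrder n (B j l n) (-(r j l n))) →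
      ∃ 𝒥 : Set ι, 𝒥.Infinite ∧ ∀ j, ∃ F : Finset ι, (∀ x ∈ F, x ∈ 𝒥) ∧
        ∀ (k : ℕ) (l : Fin k → ι), Function.Injective l → (∀ i, l i ∈ 𝒥 ∧ l i ∉ F) →
        ∀ n, r j (List.ofFn l) n = QQ (r j []) τ (List.ofFn l) n) := by
  refine ⟨fun X B hB => ⟨fun k n J η hη => ?_, fun k n r₀ hr₀ J S r hS => ?_⟩,
    fun hι X B hB r hr => ?_⟩
  · obtain ⟨R, B₁, B₂, hsymm, hM, h₁, hτ, h₂, hτ₂⟩ := pair_fam hY
    have g1 := bases_ne X (B := fun c => B [] c) (fun c => hB [] c) n
    have g2 := gen_mean hY.betti_le hsymm hM h₁ hτ h₂ hτ₂ X (B₀ := fun c => B [] c)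
      (fun c => hB [] c) (k := k) (n := n) (B := fun l => B (List.ofFn l) n)
      (fun l => hB (List.ofFn l) n) J hη
    filter_upwards [g1, g2] with ε e1 e2
    exact ⟨e1, e2.1, e2.2⟩
  · obtain ⟨R, B₁, B₂, hsymm, hM, h₁, hτ, h₂, hτ₂⟩ := pair_fam hY
    exact gen_order hY.betti_le hsymm hM h₁ hτ h₂ hτ₂ X (B₀ := fun c => B [] c)
      (fun c => hB [] c) (B := fun l => B (List.ofFn l) n) (fun l => hB (List.ofFn l) n) hr₀ J S r hS
  · exact Pool.Agent.Y149.TL.gen_universal hY X hB hr

end Pool.Agent.Results.MP_223b32_ag.PairsDecide
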