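import Pool.Agent.Y707.PL.SurfFin

/-!
# The analytic Tate conjecture for linear pencils of surfaces with a hyperelliptic fibration

`V` is the variety of the points `(x, y)` with `y_i ^ 2 = G_i(x)`, over the number field `K`, for
polynomials `G_i` in `k` variables such that no product of some of them is a constant times a square:
all function fields of characteristic zero that are generated over a purely transcendental extension of
a number field by square roots are of this form.  `X` is the smooth projective surface
`Y ^ 2 = a(x, t, X) + w ∏ (X - α_j(x, t))` over the finitely generated field `E(V × 𝔸¹) = E(V)(w)`, with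
`dim_a = k + 2`, for any number field `E ⊇ K`.  It is fibred over the projective line with coordinate
`t`, into curves of arithmetic genus `g`; for `g = 1` these are elliptic surfaces, among them rational
surfaces for `n = 1` and K3 surfaces for `n = 2`, and for large `g` and `n` they are of general type.

The scheme `U` is the model over `𝓞_E`, without the fibres above any finite set `R` of primes of `E`, of
an open part of `V × 𝔸¹` over which `X` extends to a smooth family of surfaces.
-/

set_option autoImplicit false
set_option maxHeartbeats 400000

namespace Pool.Agent.Results.MP_223b32_ag.PencilsOfSurfaces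

open Polynomial NumberField IsDedekindDomain Pool.Agent.Y707.SF Pool.Agent.Y707.PL
open Pool.Agent.Y707.PC (IsFunctionField exists_field)

theorem result (K : Type) [Field K] [NumberField K] (k l r g n : ℕ)
    (G : Fin l → MvPolynomial (Fin k) (𝓞 K)) (a : (MvPolynomial (Fin k) (𝓞 K))[X][X])
    (α : Fin r → (MvPolynomial (Fin k) (𝓞 K))[X]) (h : IsSurfacePencil g n G a α)
    (E : IntermediateField K (AlgebraicClosure K)) [NumberField E] :
    -- the analytic side: the pole of the `L`-function of `H^{2j}`, `j = 0, 1, 2`, at `j + dim_a`
    (∀ D : (MvPolynomial (Fin k) (𝓞 K))[X], IsDiscriminant g n a α D →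
      ∀ (R : Finset (HeightOneSpectrum (𝓞 E))) (j B : ℕ), j ≤ 2 →
      ∀ β : closedPoints (baseEquations G) (denominator G D) E R → Multiset ℂ,
        IsFrobenius (surfaceTrace g n a α l j) j B β →
        HasPole (fun y : closedPoints (baseEquations G) (denominator G D) E R => cardAt y.1) β
          (k + 1 + 1 + j) (cycleRank (classes G a α E + 2) j)) ∧
    -- there are such models
    (∃ D : (MvPolynomial (Fin k) (𝓞 K))[X], IsDiscriminant g n a α D) ∧
    -- the algebraic side: the Néron-Severi rank over `M(w)`, for the function field `M` of `V` over `E`
    (∀ (M : Type) [Field M] [Algebra E M] (ξ : Fin k → M) (η : Fin l → M),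
      IsFunctionField G E ξ η → IsSmoothSurface g n (genericSurface a α E ξ) ∧
        PicardRankAddTwo (genericSurface a α E ξ) (classes G a α E)) ∧
    -- the function field exists
    (∃ (M : Type) (_ : Field M) (_ : Algebra E M) (ξ : Fin k → M) (η : Fin l → M),
      IsFunctionField G E ξ η) := by
  refine ⟨fun D hD R j B hj β hβ => surface_pole h hD E R hj hβ, ?_,
    fun _ _ _ _ _ hM => surface_algebraic h E hM, exists_field G E⟩
  obtain ⟨D, h0, h1, h2⟩ := h.smooth
  exact ⟨D, h0, h1, h2⟩

end Pool.Agent.Results.MP_223b32_ag.PencilsOfSurfaces
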