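import Pool.Agent.Y88.QP.Tower

/-!
# The analytic Tate conjecture over finitely generated fields of characteristic zero

Let `k` be a finitely generated field of characteristic zero, `K` the algebraic closure of `ℚ` in `k`
(a number field), `D` the transcendence degree of `k` over `K`, so `dim_a(k) = D + 1`. Let `Γ` be the
absolute Galois group of `k` and `π : Γ → Gal(K̄/K)` the restriction map. Its kernel is the geometric
Galois group. Let `Y` be a smooth projective variety over `k`, with model over an integral scheme `U`
of finite type over `ℤ`, smooth over its image in the spectrum of the ring of integers of `K`, and
with geometrically irreducible generic fibre of dimension `D`. The varieties are considered over the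
algebraic closure of `k`, with the action of `Γ` on their `ℓ`-adic cohomology (any Weil cohomology
theory with coefficients `W.K` and an action of a group `Γ` is allowed), and `ι` is an embedding of the
coefficient field into `ℂ`. The character `χ` is the action of `Γ` on `ℚ_ℓ(-1)`, the inverse of the
cyclotomic character.

The hypotheses `IsArith`, `Points.IsDim`, `CycleAction`, `DeligneBounds` are known in this situation:

* `IsArith`: the geometric Frobenius elements at `v` act by `N(v)` on `ℚ_ℓ(-1)`, for `v` prime to `ℓ`;
* `Points.IsDim`: there are `O(q ^ (n D))` points of degree `n` on the fibres of `U`, uniformly;
* `CycleAction`: the classes of cycles are permuted by `Γ` up to the twist and are fixed by open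
  subgroups; classes which are linearly independent over `ℤ` are linearly independent over `ℚ_ℓ`
  (comparison with singular cohomology);
* `DeligneBounds`: the Weil conjectures, and for almost all `v` the estimate for the sum of the traces
  of the Frobenius elements over the points of the fibre `U_v` rational over the residue field, by the
  trace formula and Deligne's theorem (Weil II): the top cohomology with compact supports of `U_v` with
  coefficients in the local system `V = H^(2j)(Y)` is the space of coinvariants of the geometric
  fundamental group on `V`, twisted by `-D`; the other cohomology groups have weights at most
  `2j + 2D - 1`, and their dimensions are bounded. As `V` is a semisimple representation of the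
  geometric fundamental group, the coinvariants are the invariants.

The conclusion `PoleOrderIsRank` is the statement Q1 for `Y` and `j`: the product
`L(s) = ∏_y det(1 - Frob_y N(y) ^ (-s) | H^(2j)(Y))⁻¹` over the closed points of `U` converges for real
`s > j + dim_a(k)`, and `(s - (j + dim_a(k))) ^ r L(s)` has a finite nonzero limit for
`s → j + dim_a(k)`, `r` the rank of the group of the classes of the cycles of codimension `j` on `Y`
over the algebraic closure which are fixed by `Γ`. This is the rank of `A^j(Y)`, as a multiple of
every such class is the class of a cycle defined over `k`.

The theorem: Q1 is true for `Y` and `j` if all classes in `H^(2j)(Y)(j)` which are fixed by the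
geometric Galois group are linear combinations of classes of algebraic cycles (`TateAt`). It is true
for `Y` and all `j` if `Y` is a product of powers with arbitrary exponents of members `X_i` of
different families with big geometric monodromy (`NodalTower`): numerical and homological
equivalence coincide for `X_i`, the transcendental cohomology is in the middle degree and
irreducible under the geometric Galois groups of all finite extensions of `k`, and there is an
element of the geometric Galois group which acts on the cohomology of `X_i` by the Picard-Lefschetz
formula and trivially on the other `X_l`. For example, the `X_i` are the generic members of Lefschetz
families of arbitrary varieties without transcendental classes (such as hypersurfaces of degree `d_i`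
in the projective space, complete intersections, curves, double covers), over `k = K(t_1, ..., t_D)`,
where the parameters of the `X_i` are different variables, or fibre products of Lefschetz pencils
over a curve with different discriminants.

The proof: near the edge only the points of degree one over `K` matter, and by Deligne's estimate
`log L(j + D + x)` is `∑_v tr(Frob_v | A) q_v ^ (-x)` up to a function which has a limit for `x → 1+`,
where `A` is the space of the classes fixed by the geometric Galois group. If they are algebraic, `A` has
a rational structure and the Galois group of `K` acts on it through a finite quotient. By Artin's
theorem on rational characters and the residues of the Dedekind zeta functions, the sum is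
`- dim A^Γ log (x - 1)` up to a function which has a limit. For the second part, all classes fixed by
the geometric Galois group are determined by the first fundamental theorem of invariant theory for
symplectic and orthogonal groups.
-/

open CategoryTheory AlgebraicGeometry NumberField IsDedekindDomain

universe u v w

namespace Pool.Agent.Results.MP_223b32_ag.PolesFromGeometricClasses

open Pool.Agent.H914 Pool.Agent.W401.Cheb Pool.Agent.Y88.QP

theorem result {k : Type u} [Field k] {𝒱 : VarClass k} {ops : CycleOps 𝒱}
    {W : WeilCohomology.{u, v} ops} {Γ : Type w} [Group Γ] {K : Type} [Field K] [NumberField K]
    {π : Γ →* GK K} {χ : Γ →* W.Kˣ} {ι : W.K →+* ℂ} {U : Points K Γ} {D : ℕ} {Y : Var W Γ} {j : ℕ}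
    (hπ : IsArith π χ) (hU : U.IsDim D) (hY : CycleAction π χ (coh Y) j)
    (hD : DeligneBounds π χ ι U D (coh Y) j)
    (h : TateAt χ π.ker (coh Y) j ∨ NodalTower χ π.ker Y) :
    PoleOrderIsRank χ ι U D (coh Y) j := by
  refine pole_of_tateAt hπ hU hY hD ?_
  rcases h with h | h
  · exact h
  · exact tateAt_of_tower hY.galois h j

end Pool.Agent.Results.MP_223b32_ag.PolesFromGeometricClasses
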